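import Mathlib
import Pool.Agent.Q251.MA.TM
import Pool.Agent.Q251.MA.Sup

set_option autoImplicit false

/-! The linear bound for monochromatic progressions in the Thue-Morse sequence (full answer). -/

namespace Pool.Agent.Results.MP_aa4033_co.LinearBound

/-- the Thue-Morse sequence: the parity of the number of digits `1` in the binary expansion of `n` -/
def t (n : ℕ) : ℕ := (Nat.digits 2 n).count 1 % 2

/-- the number of terms of the longest monochromatic progression with first term `n` and difference `d` -/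
noncomputable def A₁ (n d : ℕ) : ℕ∞ := ⨆ (l : ℕ) (_ : ∀ j < l, t (n + j * d) = t n), (l : ℕ∞)

/-- the maximal number of terms of a monochromatic progression of difference `d` -/
noncomputable def A (d : ℕ) : ℕ∞ := ⨆ n : ℕ, A₁ n d

/-- (1) `A d ≤ d + 5` for all `d ≥ 1`; (2) equality holds exactly for `d = 2 ^ k - 1` with `k ≥ 2` even; (3) for odd
`d` with `2 ^ K < d < 2 ^ (K + 1) - 1`, even `A d ≤ 2 ^ K + 4`; (4) `A (2 ^ k - 1) ≤ 2 ^ k` for odd `k`. -/
theorem result :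
    (∀ d : ℕ, 1 ≤ d → A d ≤ (d + 5 : ℕ)) ∧
    (∀ d : ℕ, 1 ≤ d → (A d = (d + 5 : ℕ) ↔ ∃ k : ℕ, 2 ≤ k ∧ Even k ∧ d = 2 ^ k - 1)) ∧
    (∀ K d : ℕ, Odd d → 2 ^ K < d → d < 2 ^ (K + 1) - 1 → A d ≤ (2 ^ K + 4 : ℕ)) ∧
    (∀ k : ℕ, Odd k → A (2 ^ k - 1) ≤ (2 ^ k : ℕ)) := by
  have ht : ∀ n, t n = Q251.MA.G 0 n % 2 := fun n => by rw [t, Q251.MA.count_digits]
  refine ⟨?_, ?_, ?_, ?_⟩
  · intro d hd
    exact Q251.MA.sup_le ht (Q251.MA.TM.bound hd).1
  · intro d hd
    constructor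
    · intro h
      by_contra hns
      have h1 : A d ≤ (d + 4 : ℕ) := Q251.MA.sup_le ht ((Q251.MA.TM.bound hd).2 hns)
      rw [h, Nat.cast_le] at h1
      omega
    · intro h
      apply le_antisymm (Q251.MA.sup_le ht (Q251.MA.TM.bound hd).1)
      exact Q251.MA.le_sup ht (Q251.MA.TM.Sp.run h)
  · intro K d hd h1 h2
    exact Q251.MA.sup_le ht (Q251.MA.TM.strong hd h1 (by omega))
  · intro k hk
    obtain ⟨j, rfl⟩ := hk
    exact Q251.MA.sup_le ht (Q251.MA.TM.minus_odd j)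

end Pool.Agent.Results.MP_aa4033_co.LinearBound
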